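import Pool.Agent.helper17.EXC.Spec

/-!
# Row L62 of project EXC
-/

set_option autoImplicit false

open Finset

namespace Pool.Agent.EXC

theorem L62_vm {F : Type} [Field F] (s d : F) (u : Fin 2 → F) :
    Matrix.vecMul u (!![s - 3, -d; 1, -3]) =
      ![u 0 * s + u 1 - 3 * u 0, -(u 0 * d) - 3 * u 1] := by
  funext i
  fin_cases i <;> simp [Matrix.vecMul, dotProduct, Fin.sum_univ_two] <;> ring

theorem L62_vm2 {F : Type} [Field F] (s d : F) (u : Fin 2 → F) :
    Matrix.vecMul u (!![s, -(2 * d); 2, -s]) =
      ![2 * (u 0 * s + u 1) - s * u 0, -(2 * (u 0 * d)) - s * u 1] := by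
  funext i
  fin_cases i <;> simp [Matrix.vecMul, dotProduct, Fin.sum_univ_two] <;> ring

theorem L62 (hFL0 : FL0_stmt) (hFL6 : FL6_stmt) (hRBC : RBC_stmt) (hEIG : EIG_stmt) : L62_stmt := by
  intro F _ _ r hr hrF h6 h2 h3
  have h1 : ¬ r ∣ Nat.card F - 1 := by
    intro h
    apply h2
    have : Nat.card F ^ 2 - 1 = (Nat.card F - 1) * (Nat.card F + 1) := by
      rw [mul_comm]
      have := Nat.sq_sub_sq (Nat.card F) 1
      simpa using this
    rw [this]
    exact h.mul_right _
  obtain ⟨⟨ζ, hζ⟩, -, -, hord⟩ := hFL0 F (AlgebraicClosure F) r hr hrF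
  obtain ⟨-, hal⟩ := hFL6 F (AlgebraicClosure F) r hr hrF h6 h2 h3
  obtain ⟨α, s, d, hα, hcub⟩ := hal ζ hζ
  have hζ0 : ζ ≠ 0 := hζ.ne_zero hr.ne_zero
  have hζ1 : ζ ≠ 1 := by
    intro h
    rw [h] at hζ
    have := hζ.unique IsPrimitiveRoot.one
    exact hr.one_lt.ne' this
  refine ⟨rb 0 ![(1 : Matrix (Fin 2) (Fin 2) F) - 1, !![s - 3, -d; 1, -3],
      !![s, -(2 * d); 2, -s]],
    rb 1 ![1, (1 : Matrix (Fin 2) (Fin 2) F).adjugate - 1, 0], rb 2 ![0, 1, (1 : Matrix (Fin 2) (Fin 2) F) - 1],
    ?_, ?_, ?_, ?_⟩
  · have := hRBC F 0 ![(1 : Matrix (Fin 2) (Fin 2) F) - 1, !![s - 3, -d; 1, -3],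
      !![s, -(2 * d); 2, -s]] ?_
    · simpa using this
    · intro u hu
      have e1 := hu 1
      have e2 := hu 2
      simp only [Matrix.cons_val_one, Matrix.cons_val_zero] at e1
      simp only [Matrix.cons_val] at e2
      rw [L62_vm] at e1
      rw [L62_vm2] at e2
      have a1 := congrFun e1 0
      have a2 := congrFun e1 1
      have a3 := congrFun e2 0
      have a4 := congrFun e2 1
      simp at a1 a2 a3 a4
      by_contra hne
      have b0 : (6 - s) * u 0 = 0 := by linear_combination a3 - 2 * a1
      have b1 : (6 - s) * u 1 = 0 := by linear_combination a4 - 2 * a2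
      have hs : s = 6 := by
        by_contra hs
        have hs' : (6 - s) ≠ 0 := fun h => hs (by linear_combination -h)
        have c0 := (mul_eq_zero.mp b0).resolve_left hs'
        have c1 := (mul_eq_zero.mp b1).resolve_left hs'
        apply hne
        funext i
        fin_cases i
        · simpa using c0
        · simpa using c1
      subst hs
      have hu0 : u 0 ≠ 0 := by
        intro h0
        rw [h0] at a1
        apply hne
        funext i
        fin_cases i
        · simpa using h0
        · simpa using a1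
      have hd : d = 9 := by
        have : (d - 9) * u 0 = 0 := by linear_combination -a2 - 3 * a1
        have := (mul_eq_zero.mp this).resolve_right hu0
        linear_combination this
      subst hd
      have hα3 : α = 3 := by
        have : (α - 3) ^ 2 = 0 := by
          rw [map_ofNat, map_ofNat] at hα
          linear_combination hα
        have := pow_eq_zero_iff (n := 2) (by norm_num) |>.mp this
        linear_combination this
      apply hζ1
      have : (ζ - 1) ^ 3 = 0 := by
        rw [hα3, map_ofNat] at hcub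
        linear_combination hcub
      have := pow_eq_zero_iff (n := 3) (by norm_num) |>.mp this
      linear_combination this
  · have := hRBC F 1 ![1, (1 : Matrix (Fin 2) (Fin 2) F).adjugate - 1, 0] ?_
    · simpa using this
    · intro u hu
      have e1 := hu 0
      simpa using e1
  · have := hRBC F 2 ![0, 1, (1 : Matrix (Fin 2) (Fin 2) F) - 1] ?_
    · simpa using this
    · intro u hu
      have e1 := hu 1
      simpa using e1
  · rintro m ⟨c, hc⟩
    have hE := hEIG F (AlgebraicClosure F) 1 (!![s - 3, -d; 1, -3])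
      (!![s, -(2 * d); 2, -s]) ζ ![α, 1] ((ζ - 1) • ![α, 1]) (by simp) hζ0
      (by intro h; simpa using congrFun h 1)
    refine hord ζ hζ h1 m c (hE.1 ?_ ?_ m c hc)
    · rw [Matrix.map_one _ (map_zero _) (map_one _), Matrix.one_mulVec, sub_smul, one_smul]
    · have hinv : ζ * ζ⁻¹ = 1 := mul_inv_cancel₀ hζ0
      have key : (ζ + ζ⁻¹ - 2) * (ζ - 1) = (α - 3) * (ζ - 1) + (2 * α - algebraMap F (AlgebraicClosure F) s) := by
        apply mul_left_cancel₀ hζ0
        linear_combination hcub + (ζ - 1) * hinv
      have htr : (1 : Matrix (Fin 2) (Fin 2) F).trace = 2 := by simp [Matrix.trace_one]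
      have e3 : algebraMap F (AlgebraicClosure F) 3 = 3 := map_ofNat _ 3
      have e2 : algebraMap F (AlgebraicClosure F) 2 = 2 := map_ofNat _ 2
      rw [htr, e2]
      funext i
      fin_cases i
      · simp [Matrix.map_apply]
        rw [e3, e2]
        linear_combination α * key + (ζ + 1) * hα
      · simp [Matrix.map_apply]
        rw [e3, e2]
        linear_combination key

end Pool.Agent.EXC
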